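import Mathlib

set_option autoImplicit false

open TensorProduct Coalgebra HopfAlgebra

namespace Pool.Agent.Results.MP_078f6d_al.PhiPositive

universe u v

section Defs

variable (k : Type u) (H : Type v) [Field k] [Ring H] [HopfAlgebra k H]

/-- The canonical map `Φ_H := (id ⊗ m)(Δ ⊗ id) : H ⊗ H → H ⊗ H`,
that is `Φ_H (x ⊗ y) = x₍₁₎ ⊗ x₍₂₎ y`. -/
noncomputable def Phi : H ⊗[k] H →ₗ[k] H ⊗[k] H :=
  (LinearMap.lTensor H (LinearMap.mul' k H)) ∘ₗ
    (TensorProduct.assoc k H H H).toLinearMap ∘ₗ (LinearMap.rTensor H (comul (R := k) (A := H)))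

variable {k H}

/-- A scalar is nonnegative (with respect to the embedding `σ : k → ℂ`) if its image is a real
number `≥ 0`. -/
def Nonneg (σ : k →+* ℂ) (x : k) : Prop := 0 ≤ (σ x).re ∧ (σ x).im = 0

/-- A basis of `H` is `Φ`-set theoretic if `Φ_H (b ⊗ c)` is again of the form `b' ⊗ c'` for basis
elements `b', c'`, for all basis elements `b, c`. -/
def IsPhiSetTheoretic {ι : Type v} (b : Module.Basis ι k H) : Prop :=
  ∀ i j : ι, ∃ i' j' : ι, Phi k H (b i ⊗ₜ[k] b j) = b i' ⊗ₜ[k] b j'

/-- Conditions (1)-(5) of the positive basis property for the basis `b`. -/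
structure IsPositive (σ : k →+* ℂ) {ι : Type v} (b : Module.Basis ι k H) : Prop where
  /-- (1) the coordinates of `1` are nonnegative -/
  one : ∀ i : ι, Nonneg σ (b.repr (1 : H) i)
  /-- (2) `ε(b) ≥ 0` for all basis elements -/
  counit : ∀ i : ι, Nonneg σ (Coalgebra.counit (R := k) (b i))
  /-- (3) the coordinates of products of basis elements are nonnegative -/
  mul : ∀ i j l : ι, Nonneg σ (b.repr (b i * b j) l)
  /-- (4) the coordinates of `Δ(b)` in the basis `B ⊗ B` are nonnegative -/
  comul : ∀ (i : ι) (p : ι × ι),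
    Nonneg σ ((b.tensorProduct b).repr (Coalgebra.comul (R := k) (b i)) p)
  /-- (5) the coordinates of `S(b)` are nonnegative -/
  antipode : ∀ i l : ι, Nonneg σ (b.repr (HopfAlgebra.antipode k (b i)) l)

variable (k H)

/-- `H` has a `Φ`-set theoretic basis. -/
def HasPhiSetTheoreticBasis : Prop :=
  ∃ (ι : Type v) (b : Module.Basis ι k H), IsPhiSetTheoretic b

/-- `H` has the positive basis property. -/
def HasPositiveBasisProperty (σ : k →+* ℂ) : Prop :=
  ∃ (ι : Type v) (b : Module.Basis ι k H), IsPositive σ b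

end Defs

section Basic

variable {k : Type u} {H : Type v} [Field k] [Ring H] [HopfAlgebra k H]

lemma Phi_tmul {ι : Type*} (x y : H) (r : Coalgebra.Repr k x ι) :
    Phi k H (x ⊗ₜ[k] y) = ∑ i ∈ r.index, r.left i ⊗ₜ[k] (r.right i * y) := by
  simp only [Phi, LinearMap.coe_comp, Function.comp_apply, LinearMap.rTensor_tmul, ← r.eq,
    TensorProduct.sum_tmul, map_sum, LinearEquiv.coe_coe, TensorProduct.assoc_tmul,
    LinearMap.lTensor_tmul, LinearMap.mul'_apply]

variable (k H) in
/-- The inverse of `Φ_H`. -/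
noncomputable def Psi : H ⊗[k] H →ₗ[k] H ⊗[k] H :=
  (LinearMap.lTensor H (LinearMap.mul' k H ∘ₗ LinearMap.rTensor H (antipode k))) ∘ₗ
    (TensorProduct.assoc k H H H).toLinearMap ∘ₗ (LinearMap.rTensor H (comul (R := k) (A := H)))

lemma Psi_tmul {ι : Type*} (x y : H) (r : Coalgebra.Repr k x ι) :
    Psi k H (x ⊗ₜ[k] y) = ∑ i ∈ r.index, r.left i ⊗ₜ[k] (antipode k (r.right i) * y) := by
  simp only [Psi, LinearMap.coe_comp, Function.comp_apply, LinearMap.rTensor_tmul, ← r.eq,
    TensorProduct.sum_tmul, map_sum, LinearEquiv.coe_coe, TensorProduct.assoc_tmul,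
    LinearMap.lTensor_tmul, LinearMap.mul'_apply]

lemma sum_counit_smul_left {ι : Type*} {x : H} (r : Coalgebra.Repr k x ι) :
    ∑ i ∈ r.index, counit (R := k) (r.right i) • r.left i = x := by
  have h := congrArg (TensorProduct.rid k H) (sum_tmul_counit_eq (R := k) r)
  simpa only [map_sum, TensorProduct.rid_tmul, one_smul] using h

lemma Psi_Phi (t : H ⊗[k] H) : Psi k H (Phi k H t) = t := by
  induction t using TensorProduct.induction_on with
  | zero => simp
  | add x y hx hy => simp [hx, hy]
  | tmul x y =>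
    have r := ℛ k x
    rw [Phi_tmul x y r, map_sum]
    have h1 : ∀ i ∈ r.index, Psi k H (r.left i ⊗ₜ[k] (r.right i * y)) =
        ∑ j ∈ (ℛ k (r.left i)).index, (ℛ k (r.left i)).left j ⊗ₜ[k]
          (antipode k ((ℛ k (r.left i)).right j) * (r.right i * y)) := fun i _ =>
      Psi_tmul _ _ _
    rw [Finset.sum_congr rfl h1]
    have h2 := congrArg (LinearMap.lTensor H (LinearMap.mul' k H ∘ₗ
      TensorProduct.map (antipode k) (LinearMap.mulRight k y)))
      (sum_tmul_tmul_eq r (fun i => ℛ k (r.left i)) (fun i => ℛ k (r.right i)))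
    simp only [map_sum, LinearMap.lTensor_tmul, LinearMap.coe_comp, Function.comp_apply,
      TensorProduct.map_tmul, LinearMap.mulRight_apply, LinearMap.mul'_apply] at h2
    rw [h2]
    have h3 : ∀ i ∈ r.index, ∑ j ∈ (ℛ k (r.right i)).index, r.left i ⊗ₜ[k]
        (antipode k ((ℛ k (r.right i)).left j) * ((ℛ k (r.right i)).right j * y)) =
        (counit (R := k) (r.right i) • r.left i) ⊗ₜ[k] y := by
      intro i _
      rw [← TensorProduct.tmul_sum]
      simp_rw [← mul_assoc]
      rw [← Finset.sum_mul, sum_antipode_mul_eq_smul, smul_mul_assoc, one_mul,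
        TensorProduct.tmul_smul, TensorProduct.smul_tmul']
    rw [Finset.sum_congr rfl h3, ← TensorProduct.sum_tmul, sum_counit_smul_left]

lemma Phi_Psi (t : H ⊗[k] H) : Phi k H (Psi k H t) = t := by
  induction t using TensorProduct.induction_on with
  | zero => simp
  | add x y hx hy => simp [hx, hy]
  | tmul x y =>
    have r := ℛ k x
    rw [Psi_tmul x y r, map_sum]
    have h1 : ∀ i ∈ r.index, Phi k H (r.left i ⊗ₜ[k] (antipode k (r.right i) * y)) =
        ∑ j ∈ (ℛ k (r.left i)).index, (ℛ k (r.left i)).left j ⊗ₜ[k]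
          ((ℛ k (r.left i)).right j * (antipode k (r.right i) * y)) := fun i _ =>
      Phi_tmul _ _ _
    rw [Finset.sum_congr rfl h1]
    have h2 := congrArg (LinearMap.lTensor H (LinearMap.mul' k H ∘ₗ
      TensorProduct.map LinearMap.id (LinearMap.mulRight k y ∘ₗ antipode k)))
      (sum_tmul_tmul_eq r (fun i => ℛ k (r.left i)) (fun i => ℛ k (r.right i)))
    simp only [map_sum, LinearMap.lTensor_tmul, LinearMap.coe_comp, Function.comp_apply,
      TensorProduct.map_tmul, LinearMap.mulRight_apply, LinearMap.mul'_apply,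
      LinearMap.id_coe, id_eq] at h2
    rw [h2]
    have h3 : ∀ i ∈ r.index, ∑ j ∈ (ℛ k (r.right i)).index, r.left i ⊗ₜ[k]
        ((ℛ k (r.right i)).left j * (antipode k ((ℛ k (r.right i)).right j) * y)) =
        (counit (R := k) (r.right i) • r.left i) ⊗ₜ[k] y := by
      intro i _
      rw [← TensorProduct.tmul_sum]
      simp_rw [← mul_assoc]
      rw [← Finset.sum_mul, sum_mul_antipode_eq_smul, smul_mul_assoc, one_mul,
        TensorProduct.tmul_smul, TensorProduct.smul_tmul']
    rw [Finset.sum_congr rfl h3, ← TensorProduct.sum_tmul, sum_counit_smul_left]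

/-- `(ε ⊗ id) Φ (x ⊗ y) = x y`. -/
lemma counit_Phi (x y : H) :
    TensorProduct.lid k H (LinearMap.rTensor H (counit (R := k) (A := H))
      (Phi k H (x ⊗ₜ[k] y))) = x * y := by
  have r := ℛ k x
  rw [Phi_tmul x y r]
  simp only [map_sum, LinearMap.rTensor_tmul, TensorProduct.lid_tmul]
  simp_rw [← smul_mul_assoc]
  rw [← Finset.sum_mul, sum_counit_smul]

/-- `(id ⊗ ε) Φ (x ⊗ y) = ε(y) x`. -/
lemma counit_Phi' (x y : H) :
    TensorProduct.rid k H (LinearMap.lTensor H (counit (R := k) (A := H))
      (Phi k H (x ⊗ₜ[k] y))) = counit (R := k) y • x := by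
  have r := ℛ k x
  rw [Phi_tmul x y r]
  simp only [map_sum, LinearMap.lTensor_tmul, TensorProduct.rid_tmul, Bialgebra.counit_mul]
  rw [Finset.sum_congr rfl (fun i _ => by rw [mul_comm, mul_smul]), ← Finset.smul_sum,
    sum_counit_smul_left]

/-- `(ε ⊗ id) Φ⁻¹ (x ⊗ y) = S(x) y`. -/
lemma counit_Psi (x y : H) :
    TensorProduct.lid k H (LinearMap.rTensor H (counit (R := k) (A := H))
      (Psi k H (x ⊗ₜ[k] y))) = antipode k x * y := by
  have r := ℛ k x
  rw [Psi_tmul x y r]
  simp only [map_sum, LinearMap.rTensor_tmul, TensorProduct.lid_tmul]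
  simp_rw [← smul_mul_assoc, ← map_smul]
  rw [← Finset.sum_mul, ← map_sum, sum_counit_smul]

end Basic

section Main

variable {k : Type u} {H : Type v} [Field k] [Ring H] [HopfAlgebra k H]
  {ι : Type v} (b : Module.Basis ι k H) (f g : ι → ι → ι)

/-- The hypothesis that `f, g` describe `Φ_H` on the basis. -/
def Desc : Prop := ∀ i j : ι, Phi k H (b i ⊗ₜ[k] b j) = b (f i j) ⊗ₜ[k] b (g i j)

variable {b f g}

lemma tmul_inj {i j i' j' : ι} (h : b i ⊗ₜ[k] b j = b i' ⊗ₜ[k] b j') : i = i' ∧ j = j' := by
  have h2 : (b.tensorProduct b) (i, j) = (b.tensorProduct b) (i', j') := by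
    simpa [Module.Basis.tensorProduct_apply] using h
  have := (b.tensorProduct b).injective h2
  simpa using this

lemma Desc.inj (h : Desc b f g) {i j i' j' : ι} (h1 : f i j = f i' j') (h2 : g i j = g i' j') :
    i = i' ∧ j = j' := by
  apply tmul_inj (b := b)
  have := h i j
  rw [h1, h2, ← h i' j'] at this
  have h3 := congrArg (Psi k H) this
  rwa [Psi_Phi, Psi_Phi] at h3

lemma Desc.psi (h : Desc b f g) (i j : ι) :
    Psi k H (b (f i j) ⊗ₜ[k] b (g i j)) = b i ⊗ₜ[k] b j := by
  rw [← h i j, Psi_Phi]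

lemma Desc.surj (h : Desc b f g) (p q : ι) : ∃ i j : ι, f i j = p ∧ g i j = q := by
  classical
  by_contra hcon
  push Not at hcon
  set B := b.tensorProduct b with hB
  have hlin : ∀ t : H ⊗[k] H, B.repr (Phi k H t) (p, q) = 0 := by
    intro t
    have : (Finsupp.lapply (p, q) ∘ₗ B.repr.toLinearMap ∘ₗ Phi k H) = 0 := by
      apply B.ext
      rintro ⟨i, j⟩
      simp only [hB, Module.Basis.tensorProduct_apply, LinearMap.coe_comp, Function.comp_apply,
        LinearMap.zero_apply, LinearEquiv.coe_coe, Finsupp.lapply_apply]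
      rw [h i j, ← Module.Basis.tensorProduct_apply b b (f i j) (g i j), Module.Basis.repr_self,
        Finsupp.single_apply, if_neg]
      intro heq
      simp only [Prod.mk.injEq] at heq
      exact hcon i j heq.1 heq.2
    simpa using LinearMap.congr_fun this t
  have h1 := hlin (Psi k H (b p ⊗ₜ[k] b q))
  rw [Phi_Psi, ← Module.Basis.tensorProduct_apply b b p q, ← hB, Module.Basis.repr_self] at h1
  simp at h1

lemma Desc.mul (h : Desc b f g) (i j : ι) :
    b i * b j = counit (R := k) (b (f i j)) • b (g i j) := by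
  rw [← counit_Phi (k := k), h i j]
  simp

lemma Desc.counit' (h : Desc b f g) (i j : ι) :
    counit (R := k) (b j) • b i = counit (R := k) (b (g i j)) • b (f i j) := by
  rw [← counit_Phi' (k := k), h i j]
  simp

lemma Desc.antip (h : Desc b f g) (i j : ι) :
    antipode k (b (f i j)) * b (g i j) = counit (R := k) (b i) • b j := by
  rw [← counit_Psi (k := k), h.psi i j]
  simp

/-- The coordinates of `1`. -/
lemma Desc.one_repr (h : Desc b f g) (d c : ι) (hd : b.repr (1 : H) d ≠ 0) :
    g d c = c ∧ b.repr (1 : H) (f d c) = b.repr (1 : H) d := by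
  classical
  set lam := b.repr (1 : H) with hlam
  set B := b.tensorProduct b with hB
  have h1 : (1 : H) = ∑ e ∈ lam.support, lam e • b e := by
    have := b.linearCombination_repr (1 : H)
    rw [Finsupp.linearCombination_apply, Finsupp.sum] at this
    exact this.symm
  have hPhi : Phi k H ((1 : H) ⊗ₜ[k] b c) = (1 : H) ⊗ₜ[k] b c := by
    simp [Phi, Algebra.TensorProduct.one_def]
  have h2 : ∑ e ∈ lam.support, lam e • (b (f e c) ⊗ₜ[k] b (g e c)) =
      ∑ e ∈ lam.support, lam e • (b e ⊗ₜ[k] b c) := by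
    have := hPhi
    rw [h1] at this
    simp only [TensorProduct.sum_tmul, map_sum, ← TensorProduct.smul_tmul', map_smul] at this
    rw [← this]
    exact Finset.sum_congr rfl (fun e _ => by rw [h e c])
  have h3 := congrArg (fun t => B.repr t (f d c, g d c)) h2
  simp only [map_sum, map_smul, ← Module.Basis.tensorProduct_apply b b, ← hB,
    Module.Basis.repr_self, Finsupp.coe_finsetSum, Finset.sum_apply, Finsupp.smul_apply,
    Finsupp.single_apply, Prod.mk.injEq, smul_eq_mul, mul_ite, mul_one, mul_zero] at h3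
  have h4 : ∀ e ∈ lam.support,
      (if f e c = f d c ∧ g e c = g d c then lam e else 0) = if e = d then lam e else 0 := by
    intro e _
    by_cases hed : e = d
    · subst hed; simp
    · rw [if_neg hed, if_neg]
      rintro ⟨ha, hb⟩
      exact hed (h.inj ha hb).1
  rw [Finset.sum_congr rfl h4, Finset.sum_ite_eq'] at h3
  rw [if_pos (Finsupp.mem_support_iff.2 hd)] at h3
  by_cases hgc : g d c = c
  · refine ⟨hgc, ?_⟩
    have h5 : ∀ e ∈ lam.support,
        (if e = f d c ∧ c = g d c then lam e else 0) = if e = f d c then lam e else 0 := by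
      intro e _
      simp [hgc]
    rw [Finset.sum_congr rfl h5, Finset.sum_ite_eq'] at h3
    by_cases hm : f d c ∈ lam.support
    · rw [if_pos hm] at h3
      exact h3.symm
    · rw [if_neg hm] at h3
      exact absurd h3 hd
  · exfalso
    apply hd
    rw [h3]
    apply Finset.sum_eq_zero
    intro e _
    rw [if_neg]
    rintro ⟨-, hc⟩
    exact hgc hc.symm

lemma one_eq_sum : (1 : H) = ∑ e ∈ (b.repr (1 : H)).support, b.repr (1 : H) e • b e := by
  have := b.linearCombination_repr (1 : H)
  rw [Finsupp.linearCombination_apply, Finsupp.sum] at this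
  exact this.symm

lemma Desc.mul_of_one (h : Desc b f g) (d c : ι) (hd : b.repr (1 : H) d ≠ 0) :
    b d * b c = counit (R := k) (b (f d c)) • b c := by
  rw [h.mul d c, (h.one_repr d c hd).1]

/-- For `d, e` in the support of `1`. -/
lemma Desc.idem [DecidableEq ι] (h : Desc b f g) (d e : ι) (hd : b.repr (1 : H) d ≠ 0) :
    b.repr (1 : H) e * counit (R := k) (b (f d e)) = if d = e then 1 else 0 := by
  have h1 : b d = ∑ e' ∈ (b.repr (1 : H)).support,
      (b.repr (1 : H) e' * counit (R := k) (b (f d e'))) • b e' := by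
    conv_lhs => rw [← mul_one (b d), one_eq_sum (b := b), Finset.mul_sum]
    refine Finset.sum_congr rfl (fun e' _ => ?_)
    rw [mul_smul_comm, h.mul_of_one d e' hd, smul_smul]
  have h2 := congrArg (fun t => b.repr t e) h1
  simp only [map_sum, map_smul, Module.Basis.repr_self, Finsupp.coe_finsetSum, Finset.sum_apply,
    Finsupp.smul_apply, Finsupp.single_apply, smul_eq_mul, mul_ite, mul_one, mul_zero] at h2
  rw [Finset.sum_ite_eq'] at h2
  rw [h2]
  split_ifs with hm
  · rfl
  · rw [Finsupp.notMem_support_iff.1 hm, zero_mul]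

lemma exists_counit_ne : ∃ d : ι, b.repr (1 : H) d ≠ 0 ∧ counit (R := k) (b d) ≠ 0 := by
  by_contra hcon
  push Not at hcon
  have h1 : counit (R := k) (1 : H) = 0 := by
    rw [one_eq_sum (b := b), map_sum]
    refine Finset.sum_eq_zero (fun e he => ?_)
    rw [map_smul, hcon e (Finsupp.mem_support_iff.1 he), smul_zero]
  rw [Bialgebra.counit_one] at h1
  exact one_ne_zero h1

lemma Desc.counit_unique (h : Desc b f g) {d e : ι} (hd : b.repr (1 : H) d ≠ 0)
    (he : b.repr (1 : H) e ≠ 0) (hd' : counit (R := k) (b d) ≠ 0)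
    (he' : counit (R := k) (b e) ≠ 0) : d = e := by
  classical
  by_contra hne
  have h1 := h.idem d e hd
  rw [if_neg hne] at h1
  have h2 : counit (R := k) (b (f d e)) = 0 := (mul_eq_zero.1 h1).resolve_left he
  have h3 := h.mul_of_one d e hd
  rw [h2, zero_smul] at h3
  have h4 := congrArg (counit (R := k) (A := H)) h3
  rw [Bialgebra.counit_mul, map_zero] at h4
  exact mul_ne_zero hd' he' h4

lemma Desc.diag (h : Desc b f g) {d d0 : ι} (hd : b.repr (1 : H) d ≠ 0)
    (hd0 : b.repr (1 : H) d0 ≠ 0) (hd0' : counit (R := k) (b d0) ≠ 0) :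
    f d d = d0 ∧ b.repr (1 : H) d = b.repr (1 : H) d0 := by
  classical
  have h1 := h.idem d d hd
  rw [if_pos rfl] at h1
  have h2 : counit (R := k) (b (f d d)) ≠ 0 := by
    intro h0
    rw [h0, mul_zero] at h1
    exact zero_ne_one h1
  have h3 := (h.one_repr d d hd).2
  have h4 : f d d = d0 := h.counit_unique (by rw [h3]; exact hd) hd0 h2 hd0'
  exact ⟨h4, by rw [← h3, h4]⟩

/-- All nonzero coordinates of `1` are equal. -/
lemma Desc.const (h : Desc b f g) :
    ∃ c : k, c ≠ 0 ∧ ∀ d : ι, b.repr (1 : H) d = 0 ∨ b.repr (1 : H) d = c := by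
  obtain ⟨d0, hd0, hd0'⟩ := exists_counit_ne (b := b)
  refine ⟨b.repr (1 : H) d0, hd0, fun d => ?_⟩
  by_cases hd : b.repr (1 : H) d = 0
  · exact Or.inl hd
  · exact Or.inr (h.diag hd hd0 hd0').2

/-- Natural number valued scalars are nonnegative. -/
lemma nonneg_natCast (σ : k →+* ℂ) (n : ℕ) : Nonneg σ (n : k) := by
  simp [Nonneg]

/-- The normalised case. -/
lemma Desc.positive (h : Desc b f g)
    (hone : ∀ d : ι, b.repr (1 : H) d = 0 ∨ b.repr (1 : H) d = 1) (σ : k →+* ℂ) :
    IsPositive σ b := by
  classical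
  obtain ⟨d0, hd0, hd0'⟩ := exists_counit_ne (b := b)
  have hone' : ∀ d : ι, b.repr (1 : H) d ≠ 0 → b.repr (1 : H) d = 1 := fun d hd =>
    (hone d).resolve_left hd
  have h1 : (1 : H) = ∑ e ∈ (b.repr (1 : H)).support, b e := by
    conv_lhs => rw [one_eq_sum (b := b)]
    exact Finset.sum_congr rfl (fun e he => by
      rw [hone' e (Finsupp.mem_support_iff.1 he), one_smul])
  -- products of elements of the support of `1`
  have hE : ∀ d e : ι, b.repr (1 : H) d ≠ 0 → b.repr (1 : H) e ≠ 0 →
      b d * b e = if d = e then b e else 0 := by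
    intro d e hd he
    have h2 := h.idem d e hd
    rw [hone' e he, one_mul] at h2
    rw [h.mul_of_one d e hd, h2]
    split_ifs <;> simp
  have hcd0 : counit (R := k) (b d0) = 1 := by
    have h2 := h.idem d0 d0 hd0
    rw [hone' d0 hd0, one_mul, if_pos rfl, (h.diag hd0 hd0 hd0').1] at h2
    exact h2
  -- right multiplication by `b d`
  have hR : ∀ i d : ι, b.repr (1 : H) d ≠ 0 →
      (counit (R := k) (b (f i d)) = 0 ∨ (counit (R := k) (b (f i d)) = 1 ∧ g i d = i)) := by
    intro i d hd
    by_cases hmu : counit (R := k) (b (f i d)) = 0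
    · exact Or.inl hmu
    · right
      have hbd := h.mul i d
      have hj : b (g i d) * b d = b (g i d) := by
        have h3 : (b i * b d) * b d = b i * b d := by
          rw [mul_assoc, hE d d hd hd, if_pos rfl]
        rw [hbd, smul_mul_assoc] at h3
        exact smul_right_injective H hmu h3
      have hne : ∀ e : ι, b.repr (1 : H) e ≠ 0 → e ≠ d →
          counit (R := k) (b (f i e)) ≠ 0 → g i e ≠ g i d := by
        intro e he hed hmue heq
        have h3 : (b i * b e) * b d = 0 := by
          rw [mul_assoc, hE e d he hd, if_neg hed, mul_zero]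
        rw [h.mul i e, heq, smul_mul_assoc, hj] at h3
        exact (smul_ne_zero hmue (b.ne_zero _)) h3
      have h4 : b i = ∑ e ∈ (b.repr (1 : H)).support,
          counit (R := k) (b (f i e)) • b (g i e) := by
        conv_lhs => rw [← mul_one (b i), h1, Finset.mul_sum]
        exact Finset.sum_congr rfl (fun e _ => h.mul i e)
      have h5 := congrArg (fun t => b.repr t (g i d)) h4
      simp only [map_sum, map_smul, Module.Basis.repr_self, Finsupp.coe_finsetSum,
        Finset.sum_apply, Finsupp.smul_apply, Finsupp.single_apply, smul_eq_mul, mul_ite,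
        mul_one, mul_zero] at h5
      have h6 : ∀ e ∈ (b.repr (1 : H)).support,
          (if g i e = g i d then counit (R := k) (b (f i e)) else 0) =
          if e = d then counit (R := k) (b (f i e)) else 0 := by
        intro e he
        by_cases hed : e = d
        · subst hed; simp
        · rw [if_neg hed]
          by_cases hmue : counit (R := k) (b (f i e)) = 0
          · rw [hmue]; simp
          · rw [if_neg (hne e (Finsupp.mem_support_iff.1 he) hed hmue)]
      rw [Finset.sum_congr rfl h6, Finset.sum_ite_eq',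
        if_pos (Finsupp.mem_support_iff.2 hd)] at h5
      by_cases hi : i = g i d
      · rw [if_pos hi] at h5
        exact ⟨h5.symm, hi.symm⟩
      · rw [if_neg hi] at h5
        exact absurd h5.symm hmu
  -- the counit takes values in `{0, 1}` on the basis
  have hcou : ∀ i : ι, counit (R := k) (b i) = 0 ∨ counit (R := k) (b i) = 1 := by
    intro i
    have h2 := h.counit' i d0
    rw [hcd0, one_smul] at h2
    have h3 : f i d0 = i := by
      have h4 := congrArg (fun t => b.repr t i) h2
      simp only [map_smul, Module.Basis.repr_self, Finsupp.smul_apply, Finsupp.single_eq_same,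
        Finsupp.single_apply, smul_eq_mul, mul_ite, mul_one, mul_zero] at h4
      by_contra hne
      rw [if_neg hne] at h4
      exact one_ne_zero h4
    rcases hR i d0 hd0 with h4 | h4
    · left; rwa [h3] at h4
    · right; rw [h3] at h4; exact h4.1
  have hcouNat : ∀ i : ι, ∃ n : ℕ, counit (R := k) (b i) = n := by
    intro i
    rcases hcou i with h2 | h2
    · exact ⟨0, by rw [h2]; simp⟩
    · exact ⟨1, by rw [h2]; simp⟩
  -- coordinates in `ℕ`
  have hsingle : ∀ i l : ι, ∃ n : ℕ, b.repr (b i) l = n := by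
    intro i l
    rw [Module.Basis.repr_self, Finsupp.single_apply]
    split_ifs
    · exact ⟨1, by simp⟩
    · exact ⟨0, by simp⟩
  refine ⟨?_, ?_, ?_, ?_, ?_⟩
  · intro i
    rcases hone i with h2 | h2
    · rw [h2]; simpa using nonneg_natCast σ 0
    · rw [h2]; simpa using nonneg_natCast σ 1
  · intro i
    obtain ⟨n, hn⟩ := hcouNat i
    rw [hn]; exact nonneg_natCast σ n
  · intro i j l
    obtain ⟨n, hn⟩ := hcouNat (f i j)
    obtain ⟨m, hm⟩ := hsingle (g i j) l
    rw [h.mul i j, map_smul, Finsupp.smul_apply, hn, hm, smul_eq_mul, ← Nat.cast_mul]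
    exact nonneg_natCast σ _
  · intro i p
    have h2 : comul (R := k) (b i) =
        ∑ d ∈ (b.repr (1 : H)).support, (b (f i d) ⊗ₜ[k] b (g i d)) := by
      have h3 : Phi k H (b i ⊗ₜ[k] (1 : H)) = comul (R := k) (b i) := by
        have r := ℛ k (b i)
        rw [Phi_tmul _ _ r, ← r.eq]
        simp
      rw [← h3]
      conv_lhs => rw [h1, TensorProduct.tmul_sum, map_sum]
      exact Finset.sum_congr rfl (fun d _ => h i d)
    have h4 : ∀ d : ι, ∃ n : ℕ, (b.tensorProduct b).repr (b (f i d) ⊗ₜ[k] b (g i d)) p = n := by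
      intro d
      rw [← Module.Basis.tensorProduct_apply b b, Module.Basis.repr_self, Finsupp.single_apply]
      split_ifs
      · exact ⟨1, by simp⟩
      · exact ⟨0, by simp⟩
    choose n hn using h4
    rw [h2, map_sum, Finsupp.coe_finsetSum, Finset.sum_apply,
      Finset.sum_congr rfl (fun d _ => hn d), ← Nat.cast_sum]
    exact nonneg_natCast σ _
  · intro i l
    have h2 : ∀ d : ι, ∃ n : ℕ, b.repr (antipode k (b i) * b d) l = n := by
      intro d
      obtain ⟨i', j', hi', hj'⟩ := h.surj i d
      have h3 := h.antip i' j'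
      rw [hi', hj'] at h3
      obtain ⟨n, hn⟩ := hcouNat i'
      obtain ⟨m, hm⟩ := hsingle j' l
      exact ⟨n * m, by rw [h3, map_smul, Finsupp.smul_apply, hn, hm, smul_eq_mul, Nat.cast_mul]⟩
    choose n hn using h2
    have h4 : antipode k (b i) = ∑ d ∈ (b.repr (1 : H)).support, antipode k (b i) * b d := by
      conv_lhs => rw [← mul_one (antipode k (b i)), h1, Finset.mul_sum]
    rw [h4, map_sum, Finsupp.coe_finsetSum, Finset.sum_apply,
      Finset.sum_congr rfl (fun d _ => hn d), ← Nat.cast_sum]
    exact nonneg_natCast σ _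

/-- Rescaling a basis by a nonzero scalar. -/
lemma Desc.rescale (h : Desc b f g) (c : kˣ) : Desc (b.unitsSMul (fun _ => c)) f g := by
  intro i j
  simp only [Module.Basis.unitsSMul_apply, Units.smul_def, ← TensorProduct.smul_tmul',
    TensorProduct.tmul_smul, map_smul]
  rw [h i j]

end Main

/-- **Q1.** Let `k` be a field with an embedding `σ : k → ℂ` (so of characteristic `0`) and `H` a
Hopf algebra over `k`, possibly infinite-dimensional. If `H` has a `Φ`-set theoretic basis, then
`H` has the positive basis property. -/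
theorem result (k : Type u) (H : Type v) [Field k] [Ring H] [HopfAlgebra k H] (σ : k →+* ℂ)
    (hH : HasPhiSetTheoreticBasis k H) : HasPositiveBasisProperty k H σ := by
  obtain ⟨ι, b, hb⟩ := hH
  choose f g hfg using hb
  have h : Desc b f g := hfg
  obtain ⟨c, hc, hcc⟩ := h.const
  refine ⟨ι, b.unitsSMul (fun _ => Units.mk0 c hc), (h.rescale (Units.mk0 c hc)).positive ?_ σ⟩
  intro d
  rw [Module.Basis.repr_unitsSMul]
  rcases hcc d with h1 | h1
  · left; rw [h1]; simp
  · right; rw [h1]; simp [Units.smul_def, hc]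

end Pool.Agent.Results.MP_078f6d_al.PhiPositive
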